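import Mathlib

/-!
# Intermediate spectator numbers

Graphs are Mathlib's multigraphs `Graph ℕ ℕ` (vertices and edges labelled by natural numbers),
assumed finite, loopless and with at least one vertex.  We show that every value between the
spectator floor and the spectator number of `G` is the spectator number of a supergraph of `G`.

The proof works with certificates `Cert G f S`: a level function `f` on the vertices and a set `S`
of vertices with distinct consecutive levels such that adjacent vertices have levels differing by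
at most one, no edge climbs from outside `S` into `S`, and vertices of `S` on consecutive levels
are joined by at most one edge.  A unique shortest path gives a certificate, a certificate gives a
unique shortest path in a supergraph, and merging two consecutive levels shows that certificates
survive taking minors.
-/

namespace Pool.Agent.Results.MP_aba9fe_co.IntermediateValues

open Graph

/-- The graphs of the problem: finite, with at least one vertex, without loops; multiple edges are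
allowed. -/
structure IsFinGraph (G : Graph ℕ ℕ) : Prop where
  nonempty : V(G).Nonempty
  finite_vertexSet : V(G).Finite
  finite_edgeSet : E(G).Finite
  loopless : G.Loopless

/-- `IsWalk G u l v`: the list `l`, whose entries are pairs (edge, next vertex), describes a walk
in `G` from `u` to `v`. -/
def IsWalk (G : Graph ℕ ℕ) : ℕ → List (ℕ × ℕ) → ℕ → Prop
  | u, [], v => u = v ∧ u ∈ V(G)
  | u, p :: l, v => G.IsLink p.1 u p.2 ∧ IsWalk G p.2 l v

/-- A path is a walk whose vertices are distinct.  Its order (number of vertices) is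
`l.length + 1` and its sequence of edges is `l.map Prod.fst`. -/
def IsPath (G : Graph ℕ ℕ) (u : ℕ) (l : List (ℕ × ℕ)) (v : ℕ) : Prop :=
  IsWalk G u l v ∧ (u :: l.map Prod.snd).Nodup

/-- A path from `u` to `v` is a unique shortest path if no `u`-`v` path has smaller order and every
`u`-`v` path of the same order has the same sequence of edges. -/
def IsUniqueShortestPath (G : Graph ℕ ℕ) (u : ℕ) (l : List (ℕ × ℕ)) (v : ℕ) : Prop :=
  IsPath G u l v ∧ ∀ l', IsPath G u l' v →
    l.length + 1 ≤ l'.length + 1 ∧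
      (l'.length + 1 = l.length + 1 → l'.map Prod.fst = l.map Prod.fst)

/-- The parade number: the largest order of a unique shortest path. -/
noncomputable def paradeNumber (G : Graph ℕ ℕ) : ℕ :=
  sSup {k | ∃ u l v, IsUniqueShortestPath G u l v ∧ k = l.length + 1}

/-- The spectator number: the number of vertices minus the parade number. -/
noncomputable def spectatorNumber (G : Graph ℕ ℕ) : ℕ := V(G).ncard - paradeNumber G

/-- The three operations: delete an isolated vertex; delete an edge; contract an edge `e` between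
`x` and `y` that has no edge parallel to it (the merged vertex is called `x`). -/
inductive MinorStep (H : Graph ℕ ℕ) : Graph ℕ ℕ → Prop
  | deleteVertex (v : ℕ) (hv : v ∈ V(H)) (hiso : ∀ e, ¬ H.Inc e v) :
      MinorStep H (H.deleteVerts {v})
  | deleteEdge (e : ℕ) (he : e ∈ E(H)) : MinorStep H (H.deleteEdges {e})
  | contract (e x y : ℕ) (he : H.IsLink e x y) (hpar : ∀ e', H.IsLink e' x y → e' = e) :
      MinorStep H ((H.deleteEdges {e}).map (fun v => if v = y then x else v))

/-- Isomorphism of graphs. -/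
def IsIsomorphic (G H : Graph ℕ ℕ) : Prop :=
  ∃ σ τ : ℕ → ℕ, Set.BijOn σ V(G) V(H) ∧ Set.BijOn τ E(G) E(H) ∧
    ∀ e x y, G.IsLink e x y → H.IsLink (τ e) (σ x) (σ y)

/-- `G` is a minor of `H` if it arises from `H`, up to isomorphism, by a sequence of the three
operations. -/
def IsMinor (G H : Graph ℕ ℕ) : Prop :=
  ∃ K, Relation.ReflTransGen MinorStep H K ∧ IsIsomorphic K G

/-- The spectator floor: the least spectator number of a graph of which `G` is a minor. -/
noncomputable def spectatorFloor (G : Graph ℕ ℕ) : ℕ :=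
  sInf {k | ∃ H, IsFinGraph H ∧ IsMinor G H ∧ k = spectatorNumber H}

/-! ### Walks -/

section walks

variable {G : Graph ℕ ℕ}

lemma IsWalk.right_mem : ∀ {u : ℕ} {l : List (ℕ × ℕ)} {v : ℕ}, IsWalk G u l v → v ∈ V(G)
  | _, [], _, h => h.1 ▸ h.2
  | _, _ :: _, _, h => IsWalk.right_mem h.2

lemma IsWalk.mem : ∀ {u : ℕ} {l : List (ℕ × ℕ)} {v : ℕ}, IsWalk G u l v →
    ∀ w ∈ u :: l.map Prod.snd, w ∈ V(G)
  | u, [], v, h, w, hw => by
    simp only [List.map_nil, List.mem_singleton] at hw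
    exact hw ▸ h.2
  | u, p :: l, v, h, w, hw => by
    rw [List.mem_cons] at hw
    rcases hw with rfl | hw
    · exact h.1.left_mem
    · exact IsWalk.mem h.2 w (by simpa using hw)

lemma IsWalk.append : ∀ {u : ℕ} {l : List (ℕ × ℕ)} {v : ℕ} {l' : List (ℕ × ℕ)} {w : ℕ},
    IsWalk G u l v → IsWalk G v l' w → IsWalk G u (l ++ l') w
  | u, [], v, l', w, h, h' => by
    rw [h.1]
    exact h'
  | u, p :: l, v, l', w, h, h' => ⟨h.1, IsWalk.append h.2 h'⟩

lemma IsWalk.split : ∀ {u : ℕ} {l : List (ℕ × ℕ)} {l' : List (ℕ × ℕ)} {w : ℕ},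
    IsWalk G u (l ++ l') w → ∃ v, IsWalk G u l v ∧ IsWalk G v l' w
  | u, [], l', w, h => by
    refine ⟨u, ⟨rfl, ?_⟩, h⟩
    exact h.mem u (by simp)
  | u, p :: l, l', w, h => by
    obtain ⟨v, h1, h2⟩ := IsWalk.split (u := p.2) (l := l) h.2
    exact ⟨v, ⟨h.1, h1⟩, h2⟩

lemma IsWalk.single {e u v : ℕ} (h : G.IsLink e u v) : IsWalk G u [(e, v)] v :=
  ⟨h, rfl, h.right_mem⟩

/-- Split a walk at one of its vertices. -/
lemma IsWalk.split_at : ∀ {u : ℕ} {l : List (ℕ × ℕ)} {v : ℕ}, IsWalk G u l v →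
    ∀ w ∈ u :: l.map Prod.snd, ∃ l₁ l₂, l = l₁ ++ l₂ ∧ IsWalk G u l₁ w ∧ IsWalk G w l₂ v
  | u, [], v, h, w, hw => by
    simp only [List.map_nil, List.mem_singleton] at hw
    subst hw
    exact ⟨[], [], rfl, ⟨rfl, h.2⟩, h⟩
  | u, p :: l, v, h, w, hw => by
    rw [List.mem_cons] at hw
    rcases hw with rfl | hw
    · exact ⟨[], p :: l, rfl, ⟨rfl, h.1.left_mem⟩, h⟩
    · obtain ⟨l₁, l₂, h1, h2, h3⟩ := IsWalk.split_at h.2 w (by simpa using hw)
      exact ⟨p :: l₁, l₂, by rw [h1]; rfl, ⟨h.1, h2⟩, h3⟩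

lemma IsWalk.end_mem : ∀ {u : ℕ} {l : List (ℕ × ℕ)} {v : ℕ}, IsWalk G u l v →
    v ∈ u :: l.map Prod.snd
  | u, [], v, h => by simp [h.1]
  | u, p :: l, v, h => by
    have := IsWalk.end_mem h.2
    rw [List.map_cons]
    exact List.mem_cons_of_mem _ this

lemma IsWalk.end_unique : ∀ {u : ℕ} {l : List (ℕ × ℕ)} {v w : ℕ}, IsWalk G u l v →
    IsWalk G u l w → v = w
  | _, [], _, _, h, h' => h.1.symm.trans h'.1
  | _, _ :: _, _, _, h, h' => IsWalk.end_unique h.2 h'.2

/-- A walk is determined by its start and its sequence of edges. -/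
lemma IsWalk.eq_of_edges : ∀ {u : ℕ} {l l' : List (ℕ × ℕ)} {v v' : ℕ}, IsWalk G u l v →
    IsWalk G u l' v' → l.map Prod.fst = l'.map Prod.fst → l = l'
  | _, [], [], _, _, _, _, _ => rfl
  | _, [], _ :: _, _, _, _, _, h => by simp at h
  | _, _ :: _, [], _, _, _, _, h => by simp at h
  | u, p :: l, p' :: l', v, v', h1, h2, h => by
    simp only [List.map_cons, List.cons.injEq] at h
    have h3 : p.2 = p'.2 := by
      have h4 := h2.1
      rw [← h.1] at h4
      exact h1.1.right_unique h4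
    have h5 : p = p' := Prod.ext h.1 h3
    subst h5
    rw [IsWalk.eq_of_edges h1.2 h2.2 h.2]

/-- Either a walk is a path or there is a shorter path with the same ends. -/
lemma IsWalk.path_or : ∀ (n : ℕ) {u : ℕ} {l : List (ℕ × ℕ)} {v : ℕ}, l.length = n →
    IsWalk G u l v → IsPath G u l v ∨ ∃ l', IsPath G u l' v ∧ l'.length < l.length := by
  intro n
  induction n using Nat.strong_induction_on with
  | _ n ih =>
    intro u l v hl h
    match l, hl, h with
    | [], hl, h => exact Or.inl ⟨h, by simp⟩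
    | p :: l, hl, h =>
      simp only [List.length_cons] at hl
      rcases ih l.length (by omega) rfl h.2 with hp | ⟨l', hl', hlen⟩
      · by_cases hu : u ∈ p.2 :: l.map Prod.snd
        · obtain ⟨l₁, l₂, h1, h2, h3⟩ := h.2.split_at u hu
          have hlen : l₂.length ≤ l.length := by rw [h1]; simp
          right
          rcases ih l₂.length (by omega) rfl h3 with hp' | ⟨l', hl', hlen'⟩
          · exact ⟨l₂, hp', by simp; omega⟩
          · exact ⟨l', hl', by simp; omega⟩
        · left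
          refine ⟨h, ?_⟩
          rw [List.map_cons, List.nodup_cons]
          exact ⟨hu, hp.2⟩
      · have hw : IsWalk G u (p :: l') v := ⟨h.1, hl'.1⟩
        right
        rcases ih (p :: l').length (by simp; omega) rfl hw with hp' | ⟨l'', hl'', hlen'⟩
        · exact ⟨p :: l', hp', by simp; omega⟩
        · refine ⟨l'', hl'', ?_⟩
          simp only [List.length_cons] at hlen' ⊢
          omega

/-- A unique shortest path is also the unique shortest walk. -/
lemma IsUniqueShortestPath.walk {u : ℕ} {l : List (ℕ × ℕ)} {v : ℕ}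
    (h : IsUniqueShortestPath G u l v) {l' : List (ℕ × ℕ)} (hl' : IsWalk G u l' v)
    (hle : l'.length ≤ l.length) : l' = l := by
  rcases IsWalk.path_or l'.length rfl hl' with hp | ⟨l'', hp, hlt⟩
  · obtain ⟨h1, h2⟩ := h.2 l' hp
    exact hl'.eq_of_edges h.1.1 (h2 (by omega))
  · have := (h.2 l'' hp).1
    omega

end walks

/-! ### Certificates -/

/-- Certificates for the existence of a supergraph with a unique shortest path on `S`. -/
structure Cert (G : Graph ℕ ℕ) (f : ℕ → ℕ) (S : Finset ℕ) : Prop where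
  sub : ∀ s ∈ S, s ∈ V(G)
  inj : ∀ s ∈ S, ∀ t ∈ S, f s = f t → s = t
  conn : ∀ s ∈ S, ∀ t ∈ S, ∀ k, f s ≤ k → k ≤ f t → ∃ r ∈ S, f r = k
  lip : ∀ x y, G.Adj x y → f x ≤ f y + 1
  ret : ∀ x s, x ∉ S → s ∈ S → G.Adj x s → f s ≤ f x
  one : ∀ s ∈ S, ∀ t ∈ S, f t = f s + 1 → ∀ e e', G.IsLink e s t → G.IsLink e' s t → e = e'

/-- Merging the levels `k` and `k + 1`. -/
def col (k t : ℕ) : ℕ := if t ≤ k then t else t - 1

/-- A unique shortest path gives a certificate. -/
lemma IsUniqueShortestPath.cert {G : Graph ℕ ℕ} {u : ℕ} {l : List (ℕ × ℕ)} {v : ℕ}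
    (h : IsUniqueShortestPath G u l v) :
    ∃ f S, Cert G f S ∧ S.card = l.length + 1 := by
  classical
  set R : ℕ → Set ℕ := fun x => {n | ∃ l', IsWalk G u l' x ∧ l'.length = n} with hR
  set f : ℕ → ℕ := fun x => sInf (R x) with hf
  have f_le : ∀ {x l'}, IsWalk G u l' x → f x ≤ l'.length := fun h' => Nat.sInf_le ⟨_, h', rfl⟩
  have f_spec : ∀ {x l'}, IsWalk G u l' x → ∃ l'', IsWalk G u l'' x ∧ l''.length = f x := by
    intro x l' h'
    exact Nat.sInf_mem (s := R x) ⟨_, _, h', rfl⟩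
  have f_on : ∀ {l₁ l₂ s}, l = l₁ ++ l₂ → IsWalk G u l₁ s → IsWalk G s l₂ v →
      f s = l₁.length := by
    intro l₁ l₂ s hl h1 h2
    refine le_antisymm (f_le h1) ?_
    obtain ⟨l'', h3, h4⟩ := f_spec h1
    by_contra hlt
    have h5 := h.walk (h3.append h2) (by rw [hl, List.length_append, List.length_append]; omega)
    have h6 := congrArg List.length h5
    rw [hl, List.length_append, List.length_append] at h6
    omega
  have hmem : ∀ s, s ∈ (u :: l.map Prod.snd).toFinset ↔ s ∈ u :: l.map Prod.snd :=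
    fun s => List.mem_toFinset
  refine ⟨f, (u :: l.map Prod.snd).toFinset, ⟨?_, ?_, ?_, ?_, ?_, ?_⟩, ?_⟩
  · intro s hs
    exact h.1.1.mem s ((hmem s).1 hs)
  · intro s hs t ht hst
    obtain ⟨l₁, l₂, e1, e2, e3⟩ := h.1.1.split_at s ((hmem s).1 hs)
    obtain ⟨m₁, m₂, d1, d2, d3⟩ := h.1.1.split_at t ((hmem t).1 ht)
    rw [f_on e1 e2 e3, f_on d1 d2 d3] at hst
    have h7 : l₁ = m₁ := List.append_inj_left (e1.symm.trans d1) hst
    subst h7
    exact e2.end_unique d2
  · intro s hs t ht k hsk hkt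
    obtain ⟨m₁, m₂, d1, d2, d3⟩ := h.1.1.split_at t ((hmem t).1 ht)
    rw [f_on d1 d2 d3] at hkt
    have hk : k ≤ l.length := by rw [d1, List.length_append]; omega
    have hsplit : l = l.take k ++ l.drop k := (List.take_append_drop k l).symm
    have hw := h.1.1
    rw [hsplit] at hw
    obtain ⟨r, r1, r2⟩ := hw.split
    refine ⟨r, (hmem r).2 ?_, ?_⟩
    · have := r1.end_mem
      rw [List.mem_cons] at this ⊢
      rcases this with this | this
      · exact Or.inl this
      · right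
        rw [List.mem_map] at this ⊢
        obtain ⟨q, hq, hq2⟩ := this
        exact ⟨q, List.mem_of_mem_take hq, hq2⟩
    · rw [f_on hsplit r1 r2, List.length_take]
      omega
  · rintro x y ⟨e, he⟩
    by_cases hy : ∃ l', IsWalk G u l' y
    · obtain ⟨l', hl'⟩ := hy
      obtain ⟨l'', h1, h2⟩ := f_spec hl'
      have := f_le (h1.append (IsWalk.single he.symm))
      rw [List.length_append, List.length_singleton] at this
      omega
    · have hx : R x = ∅ := by
        rw [Set.eq_empty_iff_forall_notMem]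
        rintro n ⟨l', hl', -⟩
        exact hy ⟨_, hl'.append (IsWalk.single he)⟩
      have : f x = 0 := by simp only [hf, hx, Nat.sInf_empty]
      omega
  · rintro x s hx hs ⟨e, he⟩
    obtain ⟨l₁, l₂, e1, e2, e3⟩ := h.1.1.split_at s ((hmem s).1 hs)
    rw [f_on e1 e2 e3]
    by_contra hlt
    obtain ⟨l'', h1, h2⟩ := f_spec (e2.append (IsWalk.single he.symm))
    have hw : IsWalk G u (l'' ++ ((e, s) :: l₂)) v := h1.append ⟨he, e3⟩
    have h3 := h.walk hw (by
      rw [e1, List.length_append, List.length_append, List.length_cons]; omega)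
    apply hx
    rw [hmem, ← h3]
    have := h1.end_mem
    rw [List.mem_cons] at this ⊢
    rcases this with this | this
    · exact Or.inl this
    · right
      rw [List.map_append, List.mem_append]
      exact Or.inl this
  · intro s hs t ht hst e e' he he'
    obtain ⟨l₁, l₂, e1, e2, e3⟩ := h.1.1.split_at s ((hmem s).1 hs)
    obtain ⟨m₁, m₂, d1, d2, d3⟩ := h.1.1.split_at t ((hmem t).1 ht)
    rw [f_on e1 e2 e3, f_on d1 d2 d3] at hst
    have hlen : (l₁ ++ ((e, t) :: m₂)).length ≤ l.length := by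
      rw [d1, List.length_append, List.length_append, List.length_cons]; omega
    have hlen' : (l₁ ++ ((e', t) :: m₂)).length ≤ l.length := by
      rw [d1, List.length_append, List.length_append, List.length_cons]; omega
    have h3 := h.walk (e2.append (show IsWalk G s ((e, t) :: m₂) v from ⟨he, d3⟩)) hlen
    have h4 := h.walk (e2.append (show IsWalk G s ((e', t) :: m₂) v from ⟨he', d3⟩)) hlen'
    have h5 := h3.trans h4.symm
    rw [List.append_cancel_left_eq] at h5
    have h6 := (List.cons.inj h5).1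
    exact congrArg Prod.fst h6
  · rw [List.toFinset_card_of_nodup h.1.2]
    simp

/-- Levels merge: dropping the vertex of level `k` from the certificate. -/
lemma Cert.collapse {G : Graph ℕ ℕ} {f : ℕ → ℕ} {S : Finset ℕ} (h : Cert G f S) (k : ℕ) :
    Cert G (fun v => col k (f v)) (S.filter (fun s => f s ≠ k)) := by
  refine ⟨?_, ?_, ?_, ?_, ?_, ?_⟩
  · intro s hs
    exact h.sub s (Finset.mem_filter.1 hs).1
  · intro s hs t ht hst
    rw [Finset.mem_filter] at hs ht
    refine h.inj s hs.1 t ht.1 ?_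
    have := hs.2
    have := ht.2
    simp only [col] at hst
    split_ifs at hst <;> omega
  · intro s hs t ht m h1 h2
    rw [Finset.mem_filter] at hs ht
    simp only [col] at h1 h2
    have a1 := hs.2
    have a2 := ht.2
    by_cases hm : m < k
    · obtain ⟨r, hr, hr2⟩ := h.conn s hs.1 t ht.1 m (by split_ifs at h1 <;> omega)
        (by split_ifs at h2 <;> omega)
      refine ⟨r, Finset.mem_filter.2 ⟨hr, by omega⟩, ?_⟩
      simp only [col]
      split_ifs <;> omega
    · obtain ⟨r, hr, hr2⟩ := h.conn s hs.1 t ht.1 (m + 1) (by split_ifs at h1 <;> omega)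
        (by split_ifs at h2 <;> omega)
      refine ⟨r, Finset.mem_filter.2 ⟨hr, by omega⟩, ?_⟩
      simp only [col]
      split_ifs <;> omega
  · intro x y hxy
    have := h.lip x y hxy
    simp only [col]
    split_ifs <;> omega
  · intro x s hx hs hxs
    rw [Finset.mem_filter] at hs hx
    have a1 := hs.2
    by_cases hxS : x ∈ S
    · have hk : f x = k := by
        by_contra hne
        exact hx ⟨hxS, hne⟩
      have := h.lip x s hxs
      have := h.lip s x hxs.symm
      simp only [col]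
      split_ifs <;> omega
    · have := h.ret x s hxS hs.1 hxs
      simp only [col]
      split_ifs <;> omega
  · intro s hs t ht hst e e' he he'
    rw [Finset.mem_filter] at hs ht
    have a1 := hs.2
    have a2 := ht.2
    have a3 := h.lip t s ⟨e, he.symm⟩
    refine h.one s hs.1 t ht.1 ?_ e e' he he'
    simp only [col] at hst
    split_ifs at hst <;> omega

lemma card_filter_level {f : ℕ → ℕ} {S : Finset ℕ}
    (hinj : ∀ s ∈ S, ∀ t ∈ S, f s = f t → s = t) (k : ℕ) :
    S.card ≤ (S.filter (fun s => f s ≠ k)).card + 1 := by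
  have h1 : (S.filter (fun s => f s = k)).card ≤ 1 := by
    rw [Finset.card_le_one]
    intro a ha b hb
    rw [Finset.mem_filter] at ha hb
    exact hinj a ha.1 b hb.1 (ha.2.trans hb.2.symm)
  have h2 := Finset.card_filter_add_card_filter_not (s := S) (fun s => f s = k)
  simp only [ne_eq] at *
  omega

/-- Certificates survive the deletion of edges. -/
lemma Cert.anti {G H : Graph ℕ ℕ} {f : ℕ → ℕ} {S : Finset ℕ} (h : Cert H f S) (hle : G ≤ H)
    (hV : ∀ s ∈ S, s ∈ V(G)) : Cert G f S where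
  sub := hV
  inj := h.inj
  conn := h.conn
  lip x y hxy := h.lip x y (hxy.mono hle)
  ret x s hx hs hxs := h.ret x s hx hs (hxs.mono hle)
  one s hs t ht hst e e' he he' := h.one s hs t ht hst e e' (he.mono hle) (he'.mono hle)

/-- Certificates survive contraction. -/
lemma Cert.contract {K : Graph ℕ ℕ} {f : ℕ → ℕ} {S : Finset ℕ} (h : Cert K f S) {e x y : ℕ}
    (he : K.IsLink e x y) (hxy : x ≠ y) :
    Cert ((K.deleteEdges {e}).map (fun v => if v = y then x else v))
      (fun v => col (min (f x) (f y)) (f v))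
      ((S.filter (fun s => f s ≠ min (f x) (f y))).image (fun v => if v = y then x else v)) := by
  classical
  set k := min (f x) (f y) with hk
  set ρ : ℕ → ℕ := fun v => if v = y then x else v with hρ
  have l1 := h.lip x y ⟨e, he⟩
  have l2 := h.lip y x ⟨e, he.symm⟩
  have hlev : ∀ v, col k (f (ρ v)) = col k (f v) := by
    intro v
    simp only [hρ]
    split_ifs with hv
    · subst hv
      simp only [col]
      split_ifs <;> omega
    · rfl
  have hρeq : ∀ a b, ρ a = ρ b → a = b ∨ (a = x ∧ b = y) ∨ (a = y ∧ b = x) := by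
    intro a b hab
    simp only [hρ] at hab
    split_ifs at hab <;> subst_vars <;> simp_all
  have hadj : ∀ {u v}, ((K.deleteEdges {e}).map ρ).Adj u v → ∃ a b, K.Adj a b ∧ ρ a = u ∧
      ρ b = v := by
    rintro u v ⟨e', a, b, hab, rfl, rfl⟩
    rw [deleteEdges_isLink] at hab
    exact ⟨a, b, ⟨e', hab.1⟩, rfl, rfl⟩
  have hS : ∀ u, u ∈ (S.filter (fun s => f s ≠ k)).image ρ ↔ ∃ s ∈ S, f s ≠ k ∧ ρ s = u := by
    intro u
    simp only [Finset.mem_image, Finset.mem_filter, and_assoc]
  have c := h.collapse k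
  refine ⟨?_, ?_, ?_, ?_, ?_, ?_⟩
  · intro u hu
    obtain ⟨s, hs, -, rfl⟩ := (hS u).1 hu
    exact ⟨s, h.sub s hs, rfl⟩
  · intro u hu v hv huv
    obtain ⟨s, hs, hsk, rfl⟩ := (hS u).1 hu
    obtain ⟨t, ht, htk, rfl⟩ := (hS v).1 hv
    simp only [hlev] at huv
    rw [c.inj s (Finset.mem_filter.2 ⟨hs, hsk⟩) t (Finset.mem_filter.2 ⟨ht, htk⟩) huv]
  · intro u hu v hv m h1 h2
    obtain ⟨s, hs, hsk, rfl⟩ := (hS u).1 hu
    obtain ⟨t, ht, htk, rfl⟩ := (hS v).1 hv
    simp only [hlev] at h1 h2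
    obtain ⟨r, hr, hr2⟩ := c.conn s (Finset.mem_filter.2 ⟨hs, hsk⟩) t
      (Finset.mem_filter.2 ⟨ht, htk⟩) m h1 h2
    rw [Finset.mem_filter] at hr
    exact ⟨ρ r, (hS _).2 ⟨r, hr.1, hr.2, rfl⟩, by simp only [hlev]; exact hr2⟩
  · intro u v huv
    obtain ⟨a, b, hab, rfl, rfl⟩ := hadj huv
    simp only [hlev]
    exact c.lip a b hab
  · intro u v hu hv huv
    obtain ⟨a, b, hab, rfl, rfl⟩ := hadj huv
    obtain ⟨s, hs, hsk, hsb⟩ := (hS _).1 hv
    simp only [hlev]
    have ha : ¬ (a ∈ S ∧ f a ≠ k) := fun ha => hu ((hS _).2 ⟨a, ha.1, ha.2, rfl⟩)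
    have l3 := h.lip b a hab.symm
    by_contra hlt
    have h3 : f a ≠ k ∧ f a < f b := by
      simp only [col] at hlt
      split_ifs at hlt <;> omega
    have ha' : a ∉ S := fun h' => ha ⟨h', h3.1⟩
    have hb' : b ∉ S := by
      intro hb'
      have := h.ret a b ha' hb' hab
      omega
    rcases hρeq s b hsb with rfl | ⟨rfl, rfl⟩ | ⟨rfl, rfl⟩
    · exact hb' hs
    · have := h.ret b s hb' hs ⟨e, he.symm⟩
      omega
    · have := h.ret b s hb' hs ⟨e, he⟩
      omega
  · intro u hu v hv huv e₁ e₂ he₁ he₂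
    obtain ⟨s, hs, hsk, rfl⟩ := (hS u).1 hu
    obtain ⟨t, ht, htk, rfl⟩ := (hS v).1 hv
    simp only [hlev] at huv
    have key : ∀ e', ((K.deleteEdges {e}).map ρ).IsLink e' (ρ s) (ρ t) →
        ∃ b ∈ S, f b = f s + 1 ∧ K.IsLink e' s b := by
      rintro e' ⟨a, b, hab, h1, h2⟩
      rw [deleteEdges_isLink] at hab
      have hab' := hab.1
      have c1 : col k (f a) = col k (f s) := by rw [← hlev a, h1, hlev s]
      have c2 : col k (f b) = col k (f t) := by rw [← hlev b, h2, hlev t]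
      have l3 := h.lip b a ⟨e', hab'.symm⟩
      have l4 := h.lip a b ⟨e', hab'⟩
      have d1 : f b = f a + 1 ∧ f a = f s ∧ f s + 1 ≤ f t := by
        simp only [col] at c1 c2 huv
        split_ifs at c1 c2 huv <;> omega
      have d2 : a = s := by
        rcases hρeq a s h1 with h3 | ⟨rfl, rfl⟩ | ⟨rfl, rfl⟩
        · exact h3
        · omega
        · omega
      subst d2
      refine ⟨b, ?_, d1.1, hab'⟩
      rcases hρeq b t h2 with rfl | ⟨rfl, rfl⟩ | ⟨rfl, rfl⟩
      · exact ht
      · by_contra hb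
        have := h.ret b t hb ht ⟨e, he⟩
        omega
      · by_contra hb
        have := h.ret b t hb ht ⟨e, he.symm⟩
        omega
    obtain ⟨b₁, hb₁, f1, k1⟩ := key _ he₁
    obtain ⟨b₂, hb₂, f2, k2⟩ := key _ he₂
    have hbb : b₁ = b₂ := h.inj _ hb₁ _ hb₂ (f1.trans f2.symm)
    subst hbb
    exact h.one s hs b₁ hb₁ f1 e₁ e₂ k1 k2

/-- The deficiency of a certificate bounds the spectator number. -/
def HasCert (G : Graph ℕ ℕ) (d : ℕ) : Prop :=
  ∃ f S, Cert G f S ∧ V(G).ncard ≤ S.card + d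

lemma HasCert.step {H K : Graph ℕ ℕ} {d : ℕ} (h : HasCert H d) (hfin : V(H).Finite)
    (hs : MinorStep H K) : HasCert K d ∧ V(K).Finite := by
  classical
  obtain ⟨f, S, hc, hd⟩ := h
  rcases hs with ⟨v, hv, hiso⟩ | ⟨e, he⟩ | ⟨e, x, y, he, hpar⟩
  · refine ⟨⟨_, _, (hc.collapse (f v)).anti deleteVerts_le ?_, ?_⟩, ?_⟩
    · intro s hs
      rw [Finset.mem_filter] at hs
      rw [vertexSet_deleteVerts]
      refine ⟨hc.sub s hs.1, ?_⟩
      rintro rfl
      exact hs.2 rfl
    · have h1 := card_filter_level hc.inj (f v)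
      have h2 : V(H.deleteVerts {v}).ncard + 1 = V(H).ncard := by
        rw [vertexSet_deleteVerts]
        exact Set.ncard_sdiff_singleton_add_one hv hfin
      omega
    · rw [vertexSet_deleteVerts]
      exact hfin.subset Set.sdiff_subset
  · exact ⟨⟨f, S, hc.anti deleteEdges_le hc.sub, hd⟩, hfin⟩
  · by_cases hxy : x = y
    · subst hxy
      have hid : (fun v => if v = x then x else v) = (id : ℕ → ℕ) := by
        funext v
        by_cases hv : v = x <;> simp [hv]
      rw [hid, Graph.map_id]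
      exact ⟨⟨f, S, hc.anti deleteEdges_le hc.sub, hd⟩, hfin⟩
    · have hVsub : V((H.deleteEdges {e}).map (fun v => if v = y then x else v)) ⊆ V(H) \ {y} := by
        rintro _ ⟨a, ha, rfl⟩
        have ha' : a ∈ V(H) := ha
        simp only [Set.mem_sdiff, Set.mem_singleton_iff]
        split_ifs with h1
        · exact ⟨he.left_mem, hxy⟩
        · exact ⟨ha', h1⟩
      refine ⟨⟨_, _, hc.contract he hxy, ?_⟩, ?_⟩
      · have h1 := card_filter_level hc.inj (min (f x) (f y))
        have h2 : V((H.deleteEdges {e}).map (fun v => if v = y then x else v)).ncard + 1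
            ≤ V(H).ncard := by
          rw [← Set.ncard_sdiff_singleton_add_one he.right_mem hfin]
          exact Nat.add_le_add_right (Set.ncard_le_ncard hVsub (hfin.subset Set.sdiff_subset)) 1
        rw [Finset.card_image_of_injOn]
        · omega
        · intro s hs t ht hst
          rw [Finset.mem_coe, Finset.mem_filter] at hs ht
          have hlip := hc.lip x y ⟨e, he⟩
          have hlip' := hc.lip y x ⟨e, he.symm⟩
          have hs2 := hs.2
          have ht2 := ht.2
          simp only at hst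
          by_cases h3 : s = y <;> by_cases h4 : t = y
          · rw [h3, h4]
          · rw [if_pos h3, if_neg h4] at hst
            subst h3 hst
            exact absurd (hc.inj _ hs.1 _ ht.1 (by omega)) (Ne.symm hxy)
          · rw [if_neg h3, if_pos h4] at hst
            subst h4 hst
            exact hc.inj _ hs.1 _ ht.1 (by omega)
          · rwa [if_neg h3, if_neg h4] at hst
      · exact (hfin.subset Set.sdiff_subset).subset hVsub

lemma HasCert.steps {H K : Graph ℕ ℕ} {d : ℕ} (h : HasCert H d) (hfin : V(H).Finite)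
    (hs : Relation.ReflTransGen MinorStep H K) : HasCert K d ∧ V(K).Finite := by
  induction hs with
  | refl => exact ⟨h, hfin⟩
  | tail _ hstep ih => exact ih.1.step ih.2 hstep

lemma HasCert.iso {K G : Graph ℕ ℕ} {d : ℕ} (h : HasCert K d) (hi : IsIsomorphic K G) :
    HasCert G d := by
  classical
  obtain ⟨f, S, hc, hd⟩ := h
  obtain ⟨σ, τ, hσ, hτ, hlink⟩ := hi
  set g := Function.invFunOn σ V(K) with hg
  have hg1 : ∀ y ∈ V(G), g y ∈ V(K) ∧ σ (g y) = y := fun y hy =>
    ⟨Function.invFunOn_mem (hσ.surjOn hy), Function.invFunOn_eq (hσ.surjOn hy)⟩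
  have hg2 : ∀ x ∈ V(K), g (σ x) = x := fun x hx => hσ.injOn.leftInvOn_invFunOn hx
  have key : ∀ e' x y, G.IsLink e' x y → ∃ e, τ e = e' ∧ K.IsLink e (g x) (g y) := by
    intro e' x y hxy
    obtain ⟨e, he, rfl⟩ := hτ.surjOn hxy.edge_mem
    obtain ⟨a, b, hab⟩ := exists_isLink_of_mem_edgeSet he
    have h1 := hlink e a b hab
    refine ⟨e, rfl, ?_⟩
    rcases h1.eq_and_eq_or_eq_and_eq hxy with ⟨h2, h3⟩ | ⟨h2, h3⟩
    · rw [← h2, ← h3, hg2 a hab.left_mem, hg2 b hab.right_mem]
      exact hab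
    · rw [← h2, ← h3, hg2 a hab.left_mem, hg2 b hab.right_mem]
      exact hab.symm
  have keyadj : ∀ x y, G.Adj x y → K.Adj (g x) (g y) := by
    rintro x y ⟨e', he'⟩
    obtain ⟨e, -, he⟩ := key e' x y he'
    exact ⟨e, he⟩
  have hS : ∀ y, y ∈ S.image σ ↔ ∃ x ∈ S, σ x = y := fun y => Finset.mem_image
  have hcard : (S.image σ).card = S.card := by
    apply Finset.card_image_of_injOn
    intro a ha b hb hab
    exact hσ.injOn (hc.sub a ha) (hc.sub b hb) hab
  have hVV : V(G).ncard = V(K).ncard := by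
    rw [← hσ.image_eq, hσ.injOn.ncard_image]
  refine ⟨fun y => f (g y), S.image σ, ⟨?_, ?_, ?_, ?_, ?_, ?_⟩, by rw [hcard, hVV]; exact hd⟩
  · intro y hy
    obtain ⟨x, hx, rfl⟩ := (hS y).1 hy
    exact hσ.mapsTo (hc.sub x hx)
  · intro y hy z hz hyz
    obtain ⟨x, hx, rfl⟩ := (hS y).1 hy
    obtain ⟨w, hw, rfl⟩ := (hS z).1 hz
    simp only [hg2 x (hc.sub x hx), hg2 w (hc.sub w hw)] at hyz
    rw [hc.inj x hx w hw hyz]
  · intro y hy z hz k h1 h2
    obtain ⟨x, hx, rfl⟩ := (hS y).1 hy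
    obtain ⟨w, hw, rfl⟩ := (hS z).1 hz
    simp only [hg2 x (hc.sub x hx), hg2 w (hc.sub w hw)] at h1 h2
    obtain ⟨r, hr, hr2⟩ := hc.conn x hx w hw k h1 h2
    exact ⟨σ r, (hS _).2 ⟨r, hr, rfl⟩, by rw [hg2 r (hc.sub r hr)]; exact hr2⟩
  · intro x y hxy
    exact hc.lip _ _ (keyadj x y hxy)
  · intro x s hx hs hxs
    obtain ⟨w, hw, rfl⟩ := (hS s).1 hs
    have h1 := keyadj _ _ hxs
    rw [hg2 w (hc.sub w hw)] at h1 ⊢
    refine hc.ret (g x) w ?_ hw h1
    intro hgx
    exact hx ((hS x).2 ⟨g x, hgx, (hg1 x hxs.left_mem).2⟩)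
  · intro s hs t ht hst e₁ e₂ he₁ he₂
    obtain ⟨w, hw, rfl⟩ := (hS s).1 hs
    obtain ⟨z, hz, rfl⟩ := (hS t).1 ht
    obtain ⟨e₁', rfl, k1⟩ := key _ _ _ he₁
    obtain ⟨e₂', rfl, k2⟩ := key _ _ _ he₂
    rw [hg2 w (hc.sub w hw), hg2 z (hc.sub z hz)] at k1 k2
    simp only [hg2 w (hc.sub w hw), hg2 z (hc.sub z hz)] at hst
    rw [hc.one w hw z hz hst e₁' e₂' k1 k2]

/-! ### From certificates to supergraphs -/

/-- Add one edge, with label `N + f s`, between each pair `s`, `t` of nonadjacent vertices of `S`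
on consecutive levels. -/
def extend (G : Graph ℕ ℕ) (f : ℕ → ℕ) (S : Finset ℕ) (N : ℕ) (hN : ∀ e ∈ E(G), e < N)
    (hc : Cert G f S) : Graph ℕ ℕ where
  vertexSet := V(G)
  IsLink e x y := G.IsLink e x y ∨ (∃ s ∈ S, ∃ t ∈ S, f t = f s + 1 ∧ ¬ G.Adj s t ∧ e = N + f s ∧
    ((x = s ∧ y = t) ∨ (x = t ∧ y = s)))
  isLink_symm e he := ⟨by
    rintro x y (h | ⟨s, hs, t, ht, h1, h2, h3, h4⟩)
    · exact Or.inl h.symm
    · exact Or.inr ⟨s, hs, t, ht, h1, h2, h3, h4.symm.imp And.symm And.symm⟩⟩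
  eq_or_eq_of_isLink_of_isLink := by
    rintro e x y v w (h | ⟨s, hs, t, ht, h1, h2, h3, h4⟩) (h' | ⟨s', hs', t', ht', h1', h2', h3', h4'⟩)
    · exact h.left_eq_or_eq h'
    · have := hN e h.edge_mem
      omega
    · have := hN e h'.edge_mem
      omega
    · have e1 : s = s' := hc.inj s hs s' hs' (by omega)
      have e2 : t = t' := hc.inj t ht t' ht' (by omega)
      subst e1 e2
      rcases h4 with ⟨rfl, rfl⟩ | ⟨rfl, rfl⟩ <;> rcases h4' with ⟨rfl, rfl⟩ | ⟨rfl, rfl⟩ <;> simp
  left_mem_of_isLink := by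
    rintro e x y (h | ⟨s, hs, t, ht, h1, h2, h3, h4⟩)
    · exact h.left_mem
    · rcases h4 with ⟨rfl, rfl⟩ | ⟨rfl, rfl⟩
      · exact hc.sub _ hs
      · exact hc.sub _ ht

/-- A certificate in which moreover vertices of `S` on consecutive levels are adjacent. -/
lemma exists_extension {G : Graph ℕ ℕ} (hG : IsFinGraph G) {f : ℕ → ℕ} {S : Finset ℕ}
    (hc : Cert G f S) : ∃ F : Graph ℕ ℕ, IsFinGraph F ∧ G ≤s F ∧ (G.Simple → F.Simple) ∧
      Cert F f S ∧ ∀ s ∈ S, ∀ t ∈ S, f t = f s + 1 → F.Adj s t := by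
  obtain ⟨N, hN⟩ : ∃ N, ∀ e ∈ E(G), e < N := by
    obtain ⟨N, hN⟩ := hG.finite_edgeSet.bddAbove
    exact ⟨N + 1, fun e he => Nat.lt_succ_of_le (hN he)⟩
  set F := extend G f S N hN hc with hF
  have hlink : ∀ e x y, F.IsLink e x y ↔ (G.IsLink e x y ∨ (∃ s ∈ S, ∃ t ∈ S, f t = f s + 1 ∧
    ¬ G.Adj s t ∧ e = N + f s ∧ ((x = s ∧ y = t) ∨ (x = t ∧ y = s)))) := fun _ _ _ => Iff.rfl
  have hV : V(F) = V(G) := rfl
  have hle : G ≤ F := ⟨hV.symm.subset, fun e x y h => (hlink e x y).2 (Or.inl h)⟩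
  have hloop : F.Loopless := by
    refine ⟨fun e x h => ?_⟩
    rcases (hlink e x x).1 h with h | ⟨s, hs, t, ht, h1, h2, h3, h4⟩
    · exact hG.loopless.not_isLoopAt e x h
    · rcases h4 with ⟨rfl, rfl⟩ | ⟨rfl, rfl⟩ <;> omega
  have hadj : ∀ {x y}, F.Adj x y → G.Adj x y ∨ (x ∈ S ∧ y ∈ S ∧ (f y = f x + 1 ∨ f x = f y + 1)) := by
    rintro x y ⟨e, he⟩
    rcases (hlink e x y).1 he with h | ⟨s, hs, t, ht, h1, h2, h3, h4⟩
    · exact Or.inl ⟨e, h⟩
    · rcases h4 with ⟨rfl, rfl⟩ | ⟨rfl, rfl⟩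
      · exact Or.inr ⟨hs, ht, Or.inl h1⟩
      · exact Or.inr ⟨ht, hs, Or.inr h1⟩
  refine ⟨F, ⟨hG.nonempty, hG.finite_vertexSet, ?_, hloop⟩, ⟨hle, rfl⟩, ?_, ?_, ?_⟩
  · refine (hG.finite_edgeSet.union (S.image (fun s => N + f s)).finite_toSet).subset ?_
    intro e he
    obtain ⟨x, y, hxy⟩ := exists_isLink_of_mem_edgeSet he
    rcases (hlink e x y).1 hxy with h | ⟨s, hs, t, ht, h1, h2, h3, h4⟩
    · exact Or.inl h.edge_mem
    · right
      rw [Finset.mem_coe, Finset.mem_image]
      exact ⟨s, hs, h3.symm⟩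
  · intro hsimple
    refine { toLoopless := hloop, eq_of_isLink := ?_ }
    intro e e' x y he he'
    rcases (hlink e x y).1 he with h | ⟨s, hs, t, ht, h1, h2, h3, h4⟩ <;>
      rcases (hlink e' x y).1 he' with h' | ⟨s', hs', t', ht', h1', h2', h3', h4'⟩
    · exact hsimple.eq_of_isLink h h'
    · exfalso
      apply h2'
      rcases h4' with ⟨rfl, rfl⟩ | ⟨rfl, rfl⟩
      · exact ⟨e, h⟩
      · exact ⟨e, h.symm⟩
    · exfalso
      apply h2
      rcases h4 with ⟨rfl, rfl⟩ | ⟨rfl, rfl⟩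
      · exact ⟨e', h'⟩
      · exact ⟨e', h'.symm⟩
    · rcases h4 with ⟨rfl, rfl⟩ | ⟨rfl, rfl⟩ <;> rcases h4' with ⟨rfl, rfl⟩ | ⟨rfl, rfl⟩ <;> omega
  · refine ⟨hc.sub, hc.inj, hc.conn, ?_, ?_, ?_⟩
    · intro x y hxy
      rcases hadj hxy with h | ⟨-, -, h⟩
      · exact hc.lip x y h
      · omega
    · intro x s hx hs hxs
      rcases hadj hxs with h | ⟨h, -, -⟩
      · exact hc.ret x s hx hs h
      · exact absurd h hx
    · intro s hs t ht hst e e' he he'
      rcases (hlink e s t).1 he with h | ⟨s₁, hs₁, t₁, ht₁, h1, h2, h3, h4⟩ <;>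
        rcases (hlink e' s t).1 he' with h' | ⟨s₂, hs₂, t₂, ht₂, h1', h2', h3', h4'⟩
      · exact hc.one s hs t ht hst e e' h h'
      · exfalso
        apply h2'
        rcases h4' with ⟨rfl, rfl⟩ | ⟨rfl, rfl⟩
        · exact ⟨e, h⟩
        · exact ⟨e, h.symm⟩
      · exfalso
        apply h2
        rcases h4 with ⟨rfl, rfl⟩ | ⟨rfl, rfl⟩
        · exact ⟨e', h'⟩
        · exact ⟨e', h'.symm⟩
      · rcases h4 with ⟨rfl, rfl⟩ | ⟨rfl, rfl⟩ <;> rcases h4' with ⟨rfl, rfl⟩ | ⟨rfl, rfl⟩ <;>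
          omega
  · intro s hs t ht hst
    by_cases h : G.Adj s t
    · exact h.mono hle
    · exact ⟨N + f s, (hlink _ _ _).2 (Or.inr ⟨s, hs, t, ht, hst, h, rfl, Or.inl ⟨rfl, rfl⟩⟩)⟩

/-- Along a walk levels climb by at most one per step. -/
lemma Cert.walk_le {G : Graph ℕ ℕ} {f : ℕ → ℕ} {S : Finset ℕ} (hc : Cert G f S) :
    ∀ {u : ℕ} {l : List (ℕ × ℕ)} {v : ℕ}, IsWalk G u l v → f v ≤ f u + l.length
  | u, [], v, h => by rw [h.1]; simp
  | u, p :: l, v, h => by
    have h1 := hc.walk_le h.2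
    have h2 := hc.lip p.2 u ⟨p.1, h.1.symm⟩
    rw [List.length_cons]
    omega

/-- A walk from outside `S` into `S` climbs strictly less than its length. -/
lemma Cert.walk_lt {G : Graph ℕ ℕ} {f : ℕ → ℕ} {S : Finset ℕ} (hc : Cert G f S) :
    ∀ {u : ℕ} {l : List (ℕ × ℕ)} {v : ℕ}, IsWalk G u l v → u ∉ S → v ∈ S → f v < f u + l.length
  | u, [], v, h, hu, hv => absurd (h.1 ▸ hv) hu
  | u, p :: l, v, h, hu, hv => by
    rw [List.length_cons]
    by_cases hp : p.2 ∈ S
    · have h1 := hc.walk_le h.2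
      have h2 := hc.ret u p.2 hu hp ⟨p.1, h.1⟩
      omega
    · have h1 := hc.walk_lt h.2 hp hv
      have h2 := hc.lip p.2 u ⟨p.1, h.1.symm⟩
      omega

lemma Cert.climb {G : Graph ℕ ℕ} {f : ℕ → ℕ} {S : Finset ℕ} (hc : Cert G f S)
    (hadj : ∀ s ∈ S, ∀ t ∈ S, f t = f s + 1 → G.Adj s t) {t : ℕ} (ht : t ∈ S) :
    ∀ (d : ℕ) (s : ℕ), s ∈ S → f t = f s + d → ∃ l, IsWalk G s l t ∧ l.length = d ∧
      (s :: l.map Prod.snd).Nodup ∧ (∀ r ∈ l.map Prod.snd, f s < f r) ∧
      ∀ l', IsWalk G s l' t → l'.length ≤ d → l' = l := by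
  intro d
  induction d with
  | zero =>
    intro s hs hst
    have : s = t := hc.inj s hs t ht (by omega)
    subst this
    refine ⟨[], ⟨rfl, hc.sub s hs⟩, rfl, by simp, by simp, ?_⟩
    intro l' _ hl'
    exact List.eq_nil_of_length_eq_zero (by omega)
  | succ d ih =>
    intro s hs hst
    obtain ⟨r, hr, hr2⟩ := hc.conn s hs t ht (f s + 1) (by omega) (by omega)
    obtain ⟨l, h1, h2, h3, h4, h5⟩ := ih r hr (by omega)
    obtain ⟨e, he⟩ := hadj s hs r hr hr2
    refine ⟨(e, r) :: l, ⟨he, h1⟩, by rw [List.length_cons, h2], ?_, ?_, ?_⟩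
    · rw [List.map_cons, List.nodup_cons]
      refine ⟨?_, h3⟩
      intro hmem
      rw [List.mem_cons] at hmem
      rcases hmem with h | h
      · rw [h] at hr2
        simp at hr2
      · have := h4 s h
        omega
    · intro q hq
      rw [List.map_cons, List.mem_cons] at hq
      rcases hq with rfl | hq
      · omega
      · have := h4 q hq
        omega
    · intro l' hl' hlen
      match l', hl', hlen with
      | [], hl', _ =>
        have := hl'.1
        subst this
        omega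
      | p :: l', hl', hlen =>
        rw [List.length_cons] at hlen
        have k1 := hc.lip p.2 s ⟨p.1, hl'.1.symm⟩
        by_cases hp : p.2 ∈ S
        · have k2 := hc.walk_le hl'.2
          have k3 : p.2 = r := hc.inj _ hp r hr (by omega)
          have k4 : p.1 = e := by
            have := hl'.1
            rw [k3] at this
            exact hc.one s hs r hr hr2 _ _ this he
          have k5 : p = (e, r) := Prod.ext k4 k3
          subst k5
          rw [h5 l' hl'.2 (by omega)]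
        · have k2 := hc.walk_lt hl'.2 hp ht
          omega

/-- A certificate whose consecutive vertices are adjacent gives a unique shortest path. -/
lemma Cert.exists_usp {G : Graph ℕ ℕ} {f : ℕ → ℕ} {S : Finset ℕ} (hc : Cert G f S)
    (hadj : ∀ s ∈ S, ∀ t ∈ S, f t = f s + 1 → G.Adj s t) (hS : S.Nonempty) :
    ∃ u l v, IsUniqueShortestPath G u l v ∧ l.length + 1 = S.card := by
  obtain ⟨a, ha, hamin⟩ := Finset.exists_min_image S f hS
  obtain ⟨b, hb, hbmax⟩ := Finset.exists_max_image S f hS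
  have hcard : S.card = f b + 1 - f a := by
    have h1 : S.image f = Finset.Icc (f a) (f b) := by
      ext k
      rw [Finset.mem_image, Finset.mem_Icc]
      constructor
      · rintro ⟨s, hs, rfl⟩
        exact ⟨hamin s hs, hbmax s hs⟩
      · rintro ⟨h1, h2⟩
        exact hc.conn a ha b hb k h1 h2
    rw [← Nat.card_Icc, ← h1, Finset.card_image_of_injOn]
    intro s hs t ht hst
    exact hc.inj s hs t ht hst
  have hab := hamin b hb
  obtain ⟨l, h1, h2, h3, -, h5⟩ := hc.climb hadj hb (f b - f a) a ha (by omega)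
  refine ⟨a, l, b, ⟨⟨h1, h3⟩, ?_⟩, by omega⟩
  intro l' hl'
  by_cases hlt : l'.length ≤ l.length
  · have := h5 l' hl'.1 (by omega)
    subst this
    exact ⟨le_rfl, fun _ => rfl⟩
  · exact ⟨by omega, fun h => by omega⟩

/-! ### The parade number -/

lemma order_le_ncard {G : Graph ℕ ℕ} (hG : V(G).Finite) {u : ℕ} {l : List (ℕ × ℕ)} {v : ℕ}
    (h : IsPath G u l v) : l.length + 1 ≤ V(G).ncard := by
  classical
  have h1 : ((u :: l.map Prod.snd).toFinset : Set ℕ) ⊆ V(G) := by
    intro w hw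
    exact h.1.mem w (by simpa using hw)
  have h2 := Set.ncard_le_ncard h1 hG
  rw [Set.ncard_coe_finset, List.toFinset_card_of_nodup h.2] at h2
  simpa using h2

lemma bddAbove_orders {G : Graph ℕ ℕ} (hG : V(G).Finite) :
    BddAbove {k | ∃ u l v, IsUniqueShortestPath G u l v ∧ k = l.length + 1} := by
  refine ⟨V(G).ncard, ?_⟩
  rintro k ⟨u, l, v, h, rfl⟩
  exact order_le_ncard hG h.1

lemma le_paradeNumber {G : Graph ℕ ℕ} (hG : V(G).Finite) {u : ℕ} {l : List (ℕ × ℕ)} {v : ℕ}
    (h : IsUniqueShortestPath G u l v) : l.length + 1 ≤ paradeNumber G :=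
  le_csSup (bddAbove_orders hG) ⟨u, l, v, h, rfl⟩

lemma exists_paradeNumber {G : Graph ℕ ℕ} (hG : IsFinGraph G) :
    ∃ u l v, IsUniqueShortestPath G u l v ∧ l.length + 1 = paradeNumber G := by
  obtain ⟨x, hx⟩ := hG.nonempty
  have hne : {k | ∃ u l v, IsUniqueShortestPath G u l v ∧ k = l.length + 1}.Nonempty := by
    refine ⟨1, x, [], x, ⟨⟨⟨rfl, hx⟩, by simp⟩, ?_⟩, rfl⟩
    intro l' _
    refine ⟨by simp, fun h => ?_⟩
    have : l' = [] := List.eq_nil_of_length_eq_zero (by simpa using h)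
    rw [this]
  obtain ⟨u, l, v, h1, h2⟩ := Nat.sSup_mem hne (bddAbove_orders hG.finite_vertexSet)
  exact ⟨u, l, v, h1, h2.symm⟩

lemma paradeNumber_le {G : Graph ℕ ℕ} (hG : IsFinGraph G) : paradeNumber G ≤ V(G).ncard := by
  obtain ⟨u, l, v, h1, h2⟩ := exists_paradeNumber hG
  rw [← h2]
  exact order_le_ncard hG.finite_vertexSet h1.1

/-- From a certificate to a supergraph with large parade number. -/
lemma exists_supergraph {G : Graph ℕ ℕ} (hG : IsFinGraph G) {f : ℕ → ℕ} {S : Finset ℕ}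
    (hc : Cert G f S) (hS : S.Nonempty) : ∃ F : Graph ℕ ℕ, IsFinGraph F ∧ G ≤s F ∧
      (G.Simple → F.Simple) ∧ S.card ≤ paradeNumber F ∧
      ∀ s ∈ S, ∀ t ∈ S, f t = f s + 1 → F.Adj s t := by
  obtain ⟨F, h1, h2, h3, h4, h5⟩ := exists_extension hG hc
  obtain ⟨u, l, v, h6, h7⟩ := h4.exists_usp h5 hS
  exact ⟨F, h1, h2, h3, h7 ▸ le_paradeNumber h1.finite_vertexSet h6, h5⟩

/-- Every value between `2` and the parade number of `F` is the parade number of a supergraph. -/
lemma descend (j : ℕ) (hj : 2 ≤ j) : ∀ (m : ℕ) (F : Graph ℕ ℕ), IsFinGraph F →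
    {q : ℕ × ℕ | q.1 ∈ V(F) ∧ q.2 ∈ V(F) ∧ ¬ F.Adj q.1 q.2}.ncard = m → j ≤ paradeNumber F →
    ∃ F' : Graph ℕ ℕ, IsFinGraph F' ∧ F ≤s F' ∧ (F.Simple → F'.Simple) ∧ paradeNumber F' = j := by
  classical
  intro m
  induction m using Nat.strong_induction_on with
  | _ m ih =>
    intro F hF hm hjF
    rcases hjF.eq_or_lt with hEq | hlt
    · exact ⟨F, hF, ⟨⟨subset_rfl, fun _ _ _ h => h⟩, rfl⟩, id, hEq.symm⟩
    · obtain ⟨u, l, v, h1, h2⟩ := exists_paradeNumber hF
      obtain ⟨f, S, hc, hcard⟩ := h1.cert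
      have hSne : S.Nonempty := by
        rw [← Finset.card_pos]
        omega
      -- the three lowest vertices
      obtain ⟨a, ha, hamin⟩ := Finset.exists_min_image S f hSne
      obtain ⟨b, hb, hbmax⟩ := Finset.exists_max_image S f hSne
      have hab : f a + 2 ≤ f b := by
        have h3 : S.card ≤ (Finset.Icc (f a) (f b)).card := by
          rw [← Finset.card_image_of_injOn (s := S) (f := f)
            (fun s hs t ht hst => hc.inj s hs t ht hst)]
          apply Finset.card_le_card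
          intro k hk
          obtain ⟨s, hs, rfl⟩ := Finset.mem_image.1 hk
          exact Finset.mem_Icc.2 ⟨hamin s hs, hbmax s hs⟩
        rw [Nat.card_Icc] at h3
        omega
      obtain ⟨c, hcS, hc2⟩ := hc.conn a ha b hb (f a + 2) (by omega) (by omega)
      have hcol := hc.collapse (f a + 1)
      have hcard' := card_filter_level hc.inj (f a + 1)
      have haS' : a ∈ S.filter (fun s => f s ≠ f a + 1) := Finset.mem_filter.2 ⟨ha, by omega⟩
      have hcS' : c ∈ S.filter (fun s => f s ≠ f a + 1) := Finset.mem_filter.2 ⟨hcS, by omega⟩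
      obtain ⟨F₁, k1, k2, k3, k4, k5⟩ := exists_supergraph hF hcol ⟨a, haS'⟩
      have hadj : F₁.Adj a c := by
        refine k5 a haS' c hcS' ?_
        simp only [col]
        split_ifs <;> omega
      have hnadj : ¬ F.Adj a c := fun h => by
        have := hc.lip c a h.symm
        omega
      have hVV : V(F) = V(F₁) := k2.vertexSet_eq
      have hlt' : {q : ℕ × ℕ | q.1 ∈ V(F₁) ∧ q.2 ∈ V(F₁) ∧ ¬ F₁.Adj q.1 q.2}.ncard < m := by
        rw [← hm]
        apply Set.ncard_lt_ncard
        · refine ⟨?_, ?_⟩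
          · rintro q ⟨q1, q2, q3⟩
            exact ⟨hVV ▸ q1, hVV ▸ q2, fun h => q3 (h.mono k2.1)⟩
          · intro hsub
            have := hsub (show (a, c) ∈ _ from ⟨hc.sub a ha, hc.sub c hcS, hnadj⟩)
            exact this.2.2 hadj
        · refine (hF.finite_vertexSet.prod hF.finite_vertexSet).subset ?_
          rintro q ⟨q1, q2, -⟩
          exact ⟨q1, q2⟩
      obtain ⟨F', n1, n2, n3, n4⟩ := ih _ hlt' F₁ k1 rfl (by omega)
      exact ⟨F', n1, ⟨k2.1.trans n2.1, hVV.trans n2.vertexSet_eq⟩, fun h => n3 (k3 h), n4⟩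

/-- **Answer to Q1.**  For every graph `G` and every `i` between the spectator floor and the
spectator number of `G` there is a supergraph `F` of `G` with spectator number `i`.  If `G` is
simple then `F` may be chosen simple. -/
theorem result (G : Graph ℕ ℕ) (hG : IsFinGraph G) (i : ℕ) (h1 : spectatorFloor G ≤ i)
    (h2 : i ≤ spectatorNumber G) :
    ∃ F : Graph ℕ ℕ, IsFinGraph F ∧ G ≤s F ∧ spectatorNumber F = i ∧ (G.Simple → F.Simple) := by
  have hpG := paradeNumber_le hG
  obtain ⟨u, l, v, hu1, hu2⟩ := exists_paradeNumber hG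
  have hn : 1 ≤ V(G).ncard := by omega
  unfold spectatorNumber at h2
  rcases Nat.lt_or_ge (V(G).ncard - i) 2 with hj | hj
  · exact ⟨G, hG, ⟨⟨subset_rfl, fun _ _ _ h => h⟩, rfl⟩, by unfold spectatorNumber; omega, id⟩
  · -- the floor is attained
    have hne : {k | ∃ H, IsFinGraph H ∧ IsMinor G H ∧ k = spectatorNumber H}.Nonempty := by
      refine ⟨_, G, hG, ⟨G, Relation.ReflTransGen.refl, id, id, Set.bijOn_id _, Set.bijOn_id _,
        fun e x y h => h⟩, rfl⟩
    obtain ⟨H, hH, ⟨K, hHK, hKG⟩, hsf⟩ := Nat.sInf_mem hne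
    change spectatorFloor G = spectatorNumber H at hsf
    have hpH := paradeNumber_le hH
    obtain ⟨u', l', v', hu1', hu2'⟩ := exists_paradeNumber hH
    obtain ⟨f, S, hc, hcard⟩ := hu1'.cert
    have hHC : HasCert H (spectatorNumber H) := ⟨f, S, hc, by unfold spectatorNumber; omega⟩
    obtain ⟨f', S', hc', hd'⟩ := ((hHC.steps hH.finite_vertexSet hHK).1.iso hKG)
    have hcardS' : V(G).ncard - i ≤ S'.card := by omega
    obtain ⟨F₀, k1, k2, k3, k4, -⟩ := exists_supergraph hG hc' (by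
      rw [← Finset.card_pos]
      omega)
    obtain ⟨F, n1, n2, n3, n4⟩ := descend (V(G).ncard - i) hj _ F₀ k1 rfl (by omega)
    have hVV : V(G) = V(F) := k2.vertexSet_eq.trans n2.vertexSet_eq
    refine ⟨F, n1, ⟨k2.1.trans n2.1, hVV⟩, ?_, fun h => n3 (k3 h)⟩
    unfold spectatorNumber
    rw [n4, ← hVV]
    omega

end Pool.Agent.Results.MP_aba9fe_co.IntermediateValues
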